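import Pool.Agent.Lib.MP_d5150c_lc.Main

set_option autoImplicit false

namespace Pool.Agent.Results.MP_d5150c_lc.FixedDegreeReductions

open N68a2faeb N793a5b8e Pool.Agent.Lib.MP_d5150c_lc

/-- For every `k` and every `L ∈ UP` there are a language `D ∈ UP` and a number `c` such that `D` is
not many-one reducible to `L` by a function computable in time `O(n ^ k)` with `n ^ (1 / c)` bits of
advice. -/
theorem result (k : ℕ) (L : DecisionProblem) (hL : L ∈ UP) :
    ∃ D ∈ UP, ∃ c : ℕ, ¬ AdviceReducible k c D L :=
  main k L hL

end Pool.Agent.Results.MP_d5150c_lc.FixedDegreeReductions
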