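import Pool.Agent.Lib.RO.Final

set_option autoImplicit false

namespace Pool.Agent.Results.MP_d5150c_lc.RandomOracle

open N68a2faeb N793a5b8e Pool.Agent.Lib.RO MeasureTheory

/-- For almost every oracle `R` and every `k`, no language in `UP` relative to `R` is hard for `UP`
relative to `R` under polynomial-time Turing reductions with `k` adaptive queries. -/
theorem result : ∀ᵐ R ∂randomOracle, ∀ k : ℕ, ¬ ∃ L : DecisionProblem, L ∈ UPRel R ∧
    ∀ L' ∈ UPRel R, BoundedReducibleRel R k L' L :=
  mainAK

end Pool.Agent.Results.MP_d5150c_lc.RandomOracle
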