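import Pool.Agent.Lib.MP_d5150c_lc.H85.SlowBit

set_option autoImplicit false

namespace Pool.Agent.Results.MP_d5150c_lc.SlowAdviceBit

open N68a2faeb N793a5b8e Pool.Agent.Lib.MP_d5150c_lc.H85 Filter

/-- There are a polynomial-time verifier and one infinite bit sequence `α` such that for every `s`
which tends to infinity (however slowly) the verifier, with one advice bit per input length which
depends on the first `s n` bits of `α` only, is unambiguous and defines a `UP`-hard language. -/
theorem result : ∃ (R : List Bool × List Bool → Bool) (p : Polynomial ℕ) (α : ℕ → Bool),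
    IsPolyTime R ∧ ∀ s : ℕ → ℕ, Tendsto s atTop atTop → IsHardVerifier R p (slowBit α s) :=
  main_slowBit

end Pool.Agent.Results.MP_d5150c_lc.SlowAdviceBit
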