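import Pool.Agent.Lib.MP_d5150c_lc.H21.SparseUP

set_option autoImplicit false

namespace Pool.Agent.Results.MP_d5150c_lc.SparseAmbiguity

open N68a2faeb N793a5b8e Pool.Agent.Lib.MP_d5150c_lc.H21 Filter

/-- For every slowly growing `s` there is a `UP`-hard language `K` with an `NP`-verifier `R` such
that the lengths up to `N` of the inputs with two different witnesses are covered by `s N` intervals
of the form `[m, 2 ^ (15 m)]`. -/
theorem result (s : ℕ → ℕ) (hmono : Monotone s) (hs : Tendsto s atTop atTop)
    (hsp : IsPolyTime (fun w : List Bool => List.replicate (s w.length) true)) :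
    ∃ (K : DecisionProblem) (p : Polynomial ℕ) (R : List Bool × List Bool → Bool),
      IsPolyTime R ∧
      (∀ x, K x ↔ ∃ w : List Bool, w.length ≤ p.eval x.length ∧ R (x, w)) ∧
      (∀ D ∈ UP, ManyOneReducible D K) ∧
      ∀ N, ∃ M : Finset ℕ, M.card ≤ s N ∧
        ∀ x w w' : List Bool, x.length ≤ N → w.length ≤ p.eval x.length →
          w'.length ≤ p.eval x.length → R (x, w) → R (x, w') → w ≠ w' →
            ∃ m ∈ M, m ≤ x.length ∧ x.length ≤ 2 ^ (15 * m) :=
  main_sparseUP s hmono hs hsp

end Pool.Agent.Results.MP_d5150c_lc.SparseAmbiguity
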